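import Pool.Agent.TDO.ThreeB

/-!
# MP_4e498a_al: numerical semigroups of embedding dimension three with `ω(S) ≠ t(S)`
-/

set_option autoImplicit false

namespace Pool.Agent.Results.MP_4e498a_al.EmbeddingDimensionThree

open Pool.Agent.TDO

/-- Let `S` be a numerical semigroup with exactly three minimal generators `n_1 < n_2 < n_3`.
Then `ω(S) ≠ t(S)` if and only if the set of the minimal generators is
`{g A, g B, u A + v B}` with `A, B ≥ 2` coprime, `u ≥ 1`, `1 ≤ v < A`, `u + v + B < g + A` and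
`2 v + A ⌈u / B⌉ < g + A`. -/
theorem result : ∀ (S : AddSubmonoid ℕ) (n : Fin 3 → ℕ), NumSg S n →
    ((omega S n : ℕ∞) ≠ tame S n ↔
      ∃ g A B u v : ℕ, Set.range n = {g * A, g * B, u * A + v * B} ∧
        Nat.Coprime A B ∧ 2 ≤ A ∧ 2 ≤ B ∧ 1 ≤ u ∧ 1 ≤ v ∧ v < A ∧
        u + v + B < g + A ∧ 2 * v + A * ((u + B - 1) / B) < g + A) :=
  fun _ _ h => three h

end Pool.Agent.Results.MP_4e498a_al.EmbeddingDimensionThree
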